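import Pool.Agent.Work.MP_9abc7c_lc.Last
import Pool.Agent.Work.MP_9abc7c_lc.Defs

/-!
# MP_9abc7c_lc: Sacks indestructible MAD families below `ℵ_ω`

If `𝔰 ≤ 𝔟 < ℵ_ω` then there is a Sacks indestructible MAD family.  The definitions are in
`Pool/Agent/Work/MP_9abc7c_lc/Defs.lean`.
-/

namespace Pool.Agent.Results.MP_9abc7c_lc.BelowAlephOmega

open Set Cardinal Ordinal Pool.Agent.Work.MP_9abc7c_lc

/-- If the splitting number is at most the bounding number and the bounding number is less than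
`ℵ_ω`, then there is a Sacks indestructible MAD family. -/
theorem result (hs : splittingNumber ≤ boundingNumber) (hb : boundingNumber < ℵ_ ω) :
    ∃ 𝒜 : Set (Set ℕ), IsMAD 𝒜 ∧ SacksIndestructible 𝒜 := by
  obtain ⟨𝒜, h1, h2, h3, h4⟩ := exists_family_below hs hb (fun n => {a | (Nat.unpair a).1 = n})
  exact ⟨𝒜, sacksIndestructible_of_meets h1 h2 h3 h4⟩

end Pool.Agent.Results.MP_9abc7c_lc.BelowAlephOmega
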